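import Pool.Agent.H40.Tr5
import Pool.Agent.H40.Tr6

set_option autoImplicit false

namespace Pool.Agent.Results.MP_2291ab_lc.Model

open Pool.Agent.H40.Bspt Pool.Agent.H40.Jz Pool.Agent.H40.Js Set Filter Tr Sum

abbrev X : Type := ℕ → V2
abbrev G : Type := TG (⊤ : AddSubgroup X)
abbrev A : Type := X ⊕ PS G G

instance : Fx G A := ⟨by
  rintro (x | s)
  exacts [(Fx.fx x).mono fun _ e => congrArg inl e, (ps_fix s).mono fun _ e => congrArg inr e]⟩

theorem he : Emb (⊤ : AddSubgroup X) (inl : X → A) := ⟨inl_injective, fun _ _ => rfl⟩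

def nd (k : ℕ) (s : X) : Filter X where
  sets := {t | ∃ W : Set V2, W.Finite ∧ ∀ᶠ y in cofinite, y ∈ cyl k s → y k ∉ W → y ∈ t}
  univ_sets := ⟨∅, finite_empty, .of_forall fun _ _ _ => trivial⟩
  sets_of_superset := fun ⟨W, a, b⟩ c => ⟨W, a, b.mono fun _ d e f => c (d e f)⟩
  inter_sets := fun ⟨W, a, b⟩ ⟨_, c, d⟩ => ⟨_, a.union c, (b.and d).mono fun _ e f g =>
    ⟨e.1 f fun h => g (Or.inl h), e.2 f fun h => g (Or.inr h)⟩⟩

theorem cyl_up {k : ℕ} {s y : X} {v : V2} :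
    y ∈ cyl (k + 1) (Function.update s k v) ↔ y ∈ cyl k s ∧ y k = v :=
  Nat.forall_lt_succ_right.trans (and_congr (forall₂_congr fun i hi => by
    rw [Function.update_of_ne hi.ne]) (by rw [Function.update_self]))

theorem nd_inf {k : ℕ} {s : X} {t : Set X} (h : t ∈ nd k s) : t.Infinite := by
  obtain ⟨W, a, b⟩ := h
  obtain ⟨v, c⟩ := a.exists_notMem
  exact ((cyl_inf (k + 1) (Function.update s k v)).sdiff b).mono fun y d =>
    by_contra fun e => d.2 fun f => e (f (cyl_up.1 d.1).1 ((cyl_up.1 d.1).2 ▸ c))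

theorem nd_of {k : ℕ} {s : X} {t : Set X} (h : ∀ᶠ y in cofinite, y ∈ cyl k s → y ∈ t) :
    t ∈ nd k s := ⟨∅, finite_empty, h.mono fun _ a b _ => a b⟩

theorem nd_sep {k l : ℕ} {s r : X} (h : l ≤ k) (e : nd k s ≠ nd l r) : (cyl k s)ᶜ ∈ nd l r :=
  ⟨_, finite_singleton (s l), .of_forall fun y a b c => by
    obtain rfl : l = k := h.eq_or_lt.resolve_right fun d => b (c l d)
    have : cyl l s = cyl l r := Set.ext fun z => forall₂_congr fun i hi => by rw [← c i hi, a i hi]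
    exact e (Filter.ext fun t => exists_congr fun W => by rw [this])⟩

theorem nd_mv {k : ℕ} {s r e : X} {g : G} (h : Ep g.1 e) (h' : r ∈ cyl k (s + e)) :
    Tendsto (g • ·) (nd k s) (nd k r) := fun t ⟨W, a, b⟩ =>
  ⟨_, a.preimage (add_left_injective (e k)).injOn, by
    filter_upwards [h, (smul_cof g).eventually b] with y c d i j
    have : g • y = y + e := c
    exact d (fun l hl => by rw [this, h' l hl, Pi.add_apply, i l hl, Pi.add_apply]) (this ▸ j)⟩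

theorem nd_sm {k : ℕ} {s r e : X} {g : G} (h : Ep g.1 e) (h' : r ∈ cyl k (s + e)) {u : PS G A}
    (a : u.1 ∈ (nd k s).map inl) : (g • u).1 ∈ (nd k r).map inl :=
  nd_mv (g := g⁻¹) h.inv (fun i hi => by simp [h' i hi]) a

def zz (k : ℕ) (s : X) : PS G (PS G A) := ⟨{u | u.1 ∈ (nd k s).map inl}, sym_of (by
  filter_upwards [sym0 (Z := ⊤) (y := cyl k (0 : X)) (Or.inr ⟨_, _, .rfl⟩)] with g a u
  obtain ⟨e, -, b⟩ := g.2
  exact nd_sm b fun i hi => by simp [ep_cyl b a i hi])⟩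

theorem zz_sm {k : ℕ} {s e : X} {g : G} (h : Ep g.1 e) : g • zz k s = zz k (s + e) :=
  Subtype.ext (Set.ext fun u => ⟨fun a => by
    have := nd_sm (u := g⁻¹ • u) h (r := s + e) (fun _ _ => rfl) a
    rwa [smul_inv_smul] at this, nd_sm (g := g⁻¹) h.inv fun i _ => by simp⟩)

theorem nd_prime (k : ℕ) (s : X) (u : PS G A) :
    u.1 ∈ (nd k s).map inl ∨ u.1ᶜ ∈ (nd k s).map inl := by
  obtain ⟨W, B, a, b, c⟩ := symU2 (he.pre u)
  by_cases e : ∃ y ∉ B, y ∈ cyl k s ∧ y k ∉ W ∧ inl y ∈ u.1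
  · obtain ⟨y, d, e, i, j⟩ := e
    exact Or.inl ⟨W, a, b.eventually_cofinite_notMem.mono fun z l m n =>
      c y d z l ⟨k, fun p q => (m p q).trans (e p q).symm, i, n⟩ j⟩
  · exact Or.inr ⟨W, a, b.eventually_cofinite_notMem.mono fun z l m n o => e ⟨z, l, m, n, o⟩⟩

theorem cover (n : ℕ) (u : X) (C : PS G (PS G A))
    (h : ∀ k, n ≤ k → ∀ s ∈ cyl n u, ∃ t ∈ C.1, t.1 ∈ (nd k s).map inl) :
    ∃ D ⊆ C.1, D.Finite ∧ ∀ᶠ y in cofinite, y ∈ cyl n u → ∃ t ∈ D, inl y ∈ t.1 := by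
  obtain ⟨S, s1, s2, s3⟩ := ev.1 C.2
  obtain ⟨m, hm⟩ := ex_pr (Z := ⊤) v2 s1 s2
  have key : ∀ j k, n ≤ k → m ≤ k + j → ∀ s ∈ cyl n u, ∃ D ⊆ C.1, D.Finite ∧
      ∀ᶠ y in cofinite, y ∈ cyl k s → ∃ t ∈ D, inl y ∈ t.1 := by
    intro j
    induction j with
    | zero =>
      intro k a b s c
      obtain ⟨t, d, W, e, f⟩ := h k a s c
      obtain ⟨w, hw⟩ := ex_shift e
      obtain ⟨g, g1, g2⟩ := hm (Pi.single k w) trivial fun i hi => Pi.single_eq_of_ne (by omega) _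
      refine ⟨{t, g⁻¹ • t}, insert_subset d (singleton_subset_iff.2 ((s3 g g2 _).1
        (by rwa [smul_inv_smul]))), toFinite _, ?_⟩
      filter_upwards [f, g1, (smul_cof g).eventually f] with y i l o p
      by_cases q : y k ∈ W
      · have : g • y = y + Pi.single k w := l
        refine ⟨_, Or.inr rfl, ?_⟩
        rw [Pool.Agent.H40.Js.mem_smul, inv_inv]
        exact o (fun r hr => by simp [this, Pi.single_eq_of_ne hr.ne, p r hr])
          (by simpa [this] using hw _ q)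
      · exact ⟨t, Or.inl rfl, i p q⟩
    | succ j ih =>
      intro k a b s c
      obtain ⟨t, d, W, e, f⟩ := h k a s c
      choose D d1 d2 d3 using fun v => ih (k + 1) (by omega) (by omega) (Function.update s k v)
        fun i hi => (Function.update_of_ne (by omega) ..).trans (c i hi)
      refine ⟨insert t (⋃ v ∈ W, D v), insert_subset d (iUnion₂_subset fun v _ => d1 v),
        (e.biUnion fun v _ => d2 v).insert t, ?_⟩
      filter_upwards [f, (eventually_all_finite e).2 fun v _ => d3 v] with y i l p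
      by_cases q : y k ∈ W
      · obtain ⟨r, o, w⟩ := l _ q (cyl_up.2 ⟨p, rfl⟩)
        exact ⟨r, Or.inr (mem_biUnion q o), w⟩
      · exact ⟨t, Or.inl rfl, i p q⟩
  exact key m n le_rfl (by omega) u fun _ _ => rfl

theorem inshc {J : JS G A} {g a : J.M} {n : ℕ} {u : X} {B : Set X} (hB : B.Finite)
    (h : J.Cov g a (J.sA (he.im _ (sym0 (s0_diff (n := n) (u := u) hB))))) :
    ∃ K T k, Cpt J.E a K T k ∧ ¬ Scattered J.E K T := by
  let c : ℕ → X → PS G A := fun k s => he.im (cyl k s) (sym0 (Or.inr ⟨_, _, .rfl⟩))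
  have c1 : ∀ k s, (c k s).1 ∈ (nd k s).map inl := fun k s =>
    nd_of (.of_forall fun y a => ⟨y, a, rfl⟩)
  have c2 : ∀ k s l r, l ≤ k → nd k s ≠ nd l r → (c k s).1ᶜ ∈ (nd l r).map inl := fun k s l r a b =>
    mem_map.2 (mem_of_superset (nd_sep a b) fun y d ⟨z, e, f⟩ => d (inl_injective f ▸ e))
  refine JS.Cov.build (t := .a) h (I := {p : ℕ × X // n ≤ p.1 ∧ p.2 ∈ cyl n u})
    ⟨(n, u), le_rfl, fun _ _ => rfl⟩ (fun i => (nd i.1.1 i.1.2).map inl) (fun i => zz i.1.1 i.1.2)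
    (fun _ _ => Iff.rfl) (sym_of ?_) (fun i t b => ?_) (fun i j e => ?_) (fun C b => ?_) fun i t b => ?_
  · filter_upwards [sym0 (Z := ⊤) (y := cyl n (0 : X)) (Or.inr ⟨_, _, .rfl⟩)] with g a
    rintro _ ⟨i, rfl⟩
    obtain ⟨e, -, b⟩ := g.2
    exact ⟨⟨(i.1.1, i.1.2 + e), i.2.1, fun l hl => by simp [ep_cyl b a l hl, i.2.2 l hl]⟩,
      (zz_sm b).symm⟩
  · refine ((nd_inf (inter_mem b (nd_of (t := cyl n u \ B) (hB.eventually_cofinite_notMem.mono
      fun y d e => ⟨fun l hl => (e l (hl.trans_le i.2.1)).trans (i.2.2 l hl), d⟩)))).image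
        he.inj.injOn).mono ?_
    rintro _ ⟨y, d, rfl⟩
    exact ⟨d.1, y, d.2, rfl⟩
  · have e' : nd i.1.1 i.1.2 ≠ nd j.1.1 j.1.2 := fun f => e (Subtype.ext (by simp only [zz, f]))
    rcases le_total j.1.1 i.1.1 with d | d
    · exact ⟨_, c1 _ _, c2 _ _ _ _ d e'⟩
    · exact ⟨⟨_, sym_compl (c j.1.1 j.1.2).2⟩, c2 _ _ _ _ d e'.symm, mem_of_superset (c1 _ _) fun _ => not_not.2⟩
  · obtain ⟨D, d1, d2, d3⟩ := cover n u C fun k a s d => b ⟨(k, s), a, d⟩
    refine ⟨D, d1, d2, fun i => by_contra fun e => ?_, ?_⟩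
    · obtain ⟨y, f, l⟩ := (nd_inf (inter_mem ((eventually_all_finite d2).2 fun t ht =>
        (nd_prime i.1.1 i.1.2 t).resolve_left fun f => e ⟨t, ht, f⟩) (nd_of (d3.mono fun y f l =>
          f fun o p => (l o (p.trans_le i.2.1)).trans (i.2.2 o p))))).nonempty
      obtain ⟨t, o, p⟩ := l
      exact f t o p
    · refine (Finite.image inl d3).subset fun y f => ?_
      obtain ⟨⟨x, i, rfl⟩, j⟩ := Classical.not_imp.1 f
      exact ⟨x, fun l => j (l i.1), rfl⟩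
  · obtain ⟨W, d, e⟩ := b
    obtain ⟨v, f⟩ := d.exists_notMem
    refine ⟨⟨(i.1.1 + 1, Function.update i.1.2 i.1.1 v), i.2.1.trans (Nat.le_succ _), fun l hl =>
      (Function.update_of_ne (hl.trans_le i.2.1).ne ..).trans (i.2.2 l hl)⟩, fun l => ?_,
      nd_of (e.mono fun y l o => l (cyl_up.1 o).1 ((cyl_up.1 o).2 ▸ f))⟩
    have := (Set.ext_iff.1 (congrArg Subtype.val l) _).1 (c1 _ _)
    obtain ⟨y, ⟨_, o, p⟩, q⟩ := (nd_inf (inter_mem this (show {y | y i.1.1 ≠ v} ∈ nd i.1.1 i.1.2 from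
      ⟨_, finite_singleton v, .of_forall fun _ _ => id⟩))).nonempty
    exact q (inl_injective p ▸ (cyl_up.1 o).2)

def BB : BooleanSubalgebra (Set G) where
  carrier := {s | Sym G s}
  supClosed' _ a _ b := sym_union a b
  infClosed' _ a _ b := sym_inter a b
  compl_mem' := sym_compl
  bot_mem' := sym_all fun _ _ a => a

theorem nbpi0 {M : Type} {E : M → M → Prop} (B : BAlg E) (h : (⊥ : Ex E B.B) ≠ ⊤)
    (h' : ∀ I, ∃ x : Ex E B.B, E xᶜ.1 I ↔ E x.1 I) : ¬ BPI E := fun a => by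
  obtain ⟨I, P, h1, h2⟩ := a B h
  obtain ⟨x, k⟩ := h' I
  rw [← h2, ← h2] at k
  exact h1.toIsProper.notMem_or_compl_notMem.elim (fun c => c (h1.mem_or_compl_mem.elim id k.1))
    fun c => c (h1.mem_or_compl_mem.elim k.2 id)

theorem nbpi (J : JS G A) : ¬ BPI J.E := by
  let s : PS G A := ⟨range inr, sym_all (by rintro g _ ⟨x, rfl⟩; exact ⟨g • x, rfl⟩)⟩
  let e : Ex J.E (J.sA s) ≃ BB := (J.eA s).symm.trans (Equiv.ofInjective _ inr_injective).symm
  letI := e.booleanAlgebra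
  refine nbpi0 ⟨J.sA s, J.ν (.w (.p .a .a)) (ps {p | ∃ x y : PS G G, x.1 ⊆ y.1 ∧
    p = (inr x, inr y)} (sym_all (by
      rintro g _ ⟨x, y, a, rfl⟩
      exact ⟨g • x, g • y, fun _ b => a b, rfl⟩))), fun x y => by
        obtain ⟨x, rfl⟩ := e.symm.surjective x
        obtain ⟨y, rfl⟩ := e.symm.surjective y
        refine ((J.app_nu (s := .a) (t := .a)).trans J.mem').trans ?_
        show _ ↔ e (e.symm x) ≤ e (e.symm y)
        rw [e.apply_symm_apply, e.apply_symm_apply]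
        exact ⟨fun ⟨x', y', a, b⟩ => by
          obtain ⟨rfl, rfl⟩ := inr_injective (Prod.ext_iff.1 b).1, inr_injective (Prod.ext_iff.1 b).2
          exact a, fun a => ⟨x, y, a, rfl⟩⟩⟩
    (fun k => (Set.ext_iff.1 (congrArg Subtype.val (e.symm.injective k)) 1).2 trivial) fun I => ?_
  obtain ⟨F, f1, f2, f3⟩ := ev.1 (J.sym_mem (t := .a) I)
  obtain ⟨m, W, B, -, hB, ht⟩ := tame f1 f2
  obtain ⟨a, a1, b, b1, ab⟩ := ((cyl_inf m (0 : X)).sdiff hB).nontrivial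
  let S : PS G G := ⟨{g | WellOrderingRel (g⁻¹ • a) (g⁻¹ • b)}, by
    filter_upwards [NF.inv.eventually (Fx.fx (Λ := G) a), NF.inv.eventually (Fx.fx (Λ := G) b)]
      with g c d x
    simp only [mem_ofPred_eq, smul_eq_mul, mul_inv_rev, mul_smul, c, d]⟩
  have k : e.symm (e (e.symm S))ᶜ = e.symm ((sw a b : G) • S : PS G G) := congrArg e.symm (by
    rw [e.apply_symm_apply]
    refine Subtype.ext (Set.ext fun g => ?_)
    show ¬ WellOrderingRel (g⁻¹ • a) (g⁻¹ • b) ↔ WellOrderingRel (((sw a b : G)⁻¹ * g)⁻¹ • a)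
      (((sw a b : G)⁻¹ * g)⁻¹ • b)
    rw [mul_inv_rev, inv_inv, mul_smul, mul_smul, sw_left, sw_comm, sw_left]
    exact ⟨fun c => (trichotomous_of WellOrderingRel _ _).elim (absurd · c) fun d => d.resolve_left
      fun f => ab (smul_left_cancel _ f), fun c d => asymm_of WellOrderingRel c d⟩)
  exact ⟨e.symm S, (iff_of_eq (congrArg (fun x : Ex J.E (J.sA s) => J.E x.1 I) k)).trans
    (f3 _ (pr_sw (ht a a1.2 b b1.2 (sim_cyl a1.1 b1.1))) (inr S))⟩

theorem result : ∃ (M : Type) (E : M → M → Prop), IsZF E ∧ INSHC E ∧ ¬ BPI E ∧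
    ¬ ∀ D, ¬ IsFin E D → CantorRem E D := by
  obtain ⟨J, hJ⟩ := ex_tr v2 he
  refine ⟨J.M, J.E, J.zf, fun a ha => ?_, nbpi J, fun h => ?_⟩
  · obtain ⟨g, h | ⟨n, u, B, hB, h⟩⟩ := hJ a ha
    exacts [h.build_om, inshc hB h]
  obtain ⟨K, T, k, hc, φ, ⟨f, hf⟩, h2, -⟩ := h (J.sA (he.im univ (sym_all fun _ _ a => a))) fun e =>
    ((cyl_inf 0 (0 : X)).mono (subset_univ _)).image he.inj.injOn (J.finA.1 e)
  obtain ⟨F, f1, f2⟩ := JS.traces hc
  obtain ⟨f', hf'⟩ := hc.2.2.2.1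
  let r : Set ℕ → El G A (.w .n) := fun s => ps s (sym_all fun _ _ a => a)
  choose z hz using fun s => h2.2 ⟨J.ν _ (r s), J.all_mem.2 fun n _ => J.nat_iff.2 ⟨n, rfl⟩⟩
  obtain ⟨ψ, hψ⟩ := J.zf.rel (R := fun x y => App J.E f x y ∧ ¬ ∃ w, J.E w (J.sA (he.im univ
    (sym_all fun _ _ a => a))) ∧ App J.E f' w x) ((Df.app (Tm.const _) (Tm.var _) (Tm.var _)).and
      (Df.neg (Df.ex' ((Df.mem' (Tm.var _) (Tm.const _)).and
        (Df.app (Tm.const _) (Tm.var _) (Tm.var _)))))) K (J.ν (.w (.w .n)) (un _))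
  have ne : ∀ s, ((F (z s).1).comap (inl : X → A)).NeBot := fun s =>
    (f1 _ (z s).2.1).1.comap_of_range_mem (image_univ ▸ (f1 _ (z s).2.1).2.1)
  have := no_unc v2 (fun s => (F (z s).1).comap inl) ne
    (fun s => (comap_mono ((f1 _ (z s).2.1).2.2.1 (z s).2.2)).trans he.inj.comap_cofinite_eq.le)
    (fun s t ⟨t', a, b⟩ => let ⟨u, c, d⟩ := (f1 _ (z s).2.1).2.2.2.1 t' a
      ⟨he.pre u, fun _ e => b (c e), preimage_mem_comap d⟩)
    ((f2 (.w .n) ψ).mono fun g a s => ?_) fun s s' e => disjoint_comap ((f1 _ (z s).2.1).2.2.2.2 _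
      (z s').2.1 fun l => e (congrArg Subtype.val (J.inj (.w .n) (congrArg Subtype.val
        ((hz s).symm.trans ((congrArg φ (Subtype.ext l)).trans (hz s')))))))
  · exact (exists_surjective_nat (Set ℕ)).elim Function.cantor_surjective
  · obtain ⟨w, b, c⟩ := a (z s).1 (r s) ((hψ _ _).2 ⟨(z s).2.1, J.mem'.2 trivial,
      (hf _ _).2 (congrArg Subtype.val (hz s)).symm, fun ⟨x, d, e⟩ =>
        (z s).2.2 ⟨x, d⟩ ((hf' ⟨x, d⟩ _).1 e).symm⟩)
    obtain ⟨b1, -, b2, b3⟩ := (hψ _ _).1 b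
    obtain rfl : w = (z s).1 := congrArg Subtype.val (h2.1 (a₁ := ⟨w, b1, fun x e =>
      b3 ⟨_, x.2, (hf' x w).2 e.symm⟩⟩) (Subtype.ext (((hf ⟨w, _⟩ _).1 b2).symm.trans
        (congrArg Subtype.val (hz s)).symm)))
    exact tendsto_comap_iff.2 ((c b1 b1).comp tendsto_comap)

end Pool.Agent.Results.MP_2291ab_lc.Model
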